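import Mathlib.Data.Nat.Choose.Bounds
import Mathlib.Algebra.Order.Archimedean.Real.Basic
import Mathlib.Tactic
import Pool.Agent.Helper45.Rainbow.Constr

namespace Pool.Agent.Results.MP_1e70ae_co.Superlinear

open Pool.Agent.Helper45.Rainbow

/-- for `m ≥ 2` the numbers `m * C(n,m)` grow faster than linearly in `n`. -/
lemma growth (m : ℕ) (hm : 2 ≤ m) (c : ℕ) : ∃ n, m ≤ n ∧ c * (n + 1) < m * n.choose m := by
  obtain ⟨K, hK⟩ : ∃ K, K = Nat.factorial m * (c + 1) * (m + 2) := ⟨_, rfl⟩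
  have hfac : 1 ≤ Nat.factorial m := Nat.factorial_pos m
  have hKpos : m + 2 ≤ K := by
    rw [hK]
    calc m + 2 = 1 * 1 * (m + 2) := by ring
      _ ≤ Nat.factorial m * (c + 1) * (m + 2) :=
          Nat.mul_le_mul_right _ (Nat.mul_le_mul hfac (by omega))
  refine ⟨m + K, by omega, ?_⟩
  have h1 : ((m + K + 1 - m) ^ m : ℕ) ≤ Nat.factorial m * (m + K).choose m := by
    have := Nat.pow_le_choose (α := ℚ) m (m + K)
    have h2 : ((((m + K) + 1 - m) ^ m : ℕ) : ℚ) / (Nat.factorial m : ℚ) ≤ ((m + K).choose m : ℚ) := by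
      exact_mod_cast this
    have h3 : (0 : ℚ) < (Nat.factorial m : ℚ) := by exact_mod_cast Nat.factorial_pos m
    rw [div_le_iff₀ h3] at h2
    have h4 : (m + K + 1 - m) ^ m ≤ (m + K).choose m * Nat.factorial m := by exact_mod_cast h2
    linarith [Nat.mul_comm ((m + K).choose m) (Nat.factorial m)]
  have h2 : (K + 1) ^ 2 ≤ (m + K + 1 - m) ^ m := by
    have : m + K + 1 - m = K + 1 := by omega
    rw [this]
    exact Nat.pow_le_pow_right (by omega) hm
  have h3 : (K + 1) ^ 2 ≤ Nat.factorial m * (m + K).choose m := h2.trans h1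
  by_contra hcon
  push Not at hcon
  have h4 : Nat.factorial m * (m * (m + K).choose m) ≤ Nat.factorial m * (c * (m + K + 1)) :=
    Nat.mul_le_mul_left _ hcon
  have h5 : m * (K + 1) ^ 2 ≤ Nat.factorial m * (c * (m + K + 1)) := by
    calc m * (K + 1) ^ 2 ≤ m * (Nat.factorial m * (m + K).choose m) := Nat.mul_le_mul_left _ h3
      _ = Nat.factorial m * (m * (m + K).choose m) := by ring
      _ ≤ _ := h4
  have h6 : Nat.factorial m * (c * (m + K + 1)) ≤ K * (K + 1) := by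
    have h7 : m + K + 1 ≤ (m + 2) * (K + 1) := by nlinarith
    calc Nat.factorial m * (c * (m + K + 1))
        ≤ Nat.factorial m * ((c + 1) * ((m + 2) * (K + 1))) :=
          Nat.mul_le_mul_left _ (Nat.mul_le_mul (by omega) h7)
      _ = Nat.factorial m * (c + 1) * (m + 2) * (K + 1) := by ring
      _ = K * (K + 1) := by rw [← hK]
  have h8 : 2 * (K + 1) ^ 2 ≤ m * (K + 1) ^ 2 := Nat.mul_le_mul_right _ hm
  nlinarith

/-- **Result.** (1) `f(r,t) ≥ (r-1) * C(t-1,r-1)` for all `t ≥ r ≥ 2`. (2) For every `r ≥ 3` no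
linear bound `f(r,t) ≤ c t` holds. (3) In particular the statement of Q1 is false. -/
theorem result :
    (∀ r t : ℕ, 2 ≤ r → r ≤ t → Admissible r t ((r - 1) * (t - 1).choose (r - 1))) ∧
    (∀ r : ℕ, 3 ≤ r → ∀ c : ℝ, ∃ t : ℕ, 1 ≤ t ∧ ∃ f : ℕ, Admissible r t f ∧ c * t < f) ∧
    ¬ ∀ r : ℕ, 2 ≤ r → ∃ c : ℝ, ∀ t : ℕ, 1 ≤ t → ∀ f : ℕ, Admissible r t f → (f : ℝ) ≤ c * t := by
  have h1 : ∀ r t : ℕ, 2 ≤ r → r ≤ t → Admissible r t ((r - 1) * (t - 1).choose (r - 1)) := by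
    intro r t hr ht
    obtain ⟨m, rfl⟩ : ∃ m, r = m + 1 := ⟨r - 1, by omega⟩
    obtain ⟨n, rfl⟩ : ∃ n, t = n + 1 := ⟨t - 1, by omega⟩
    exact admissible_constr (by omega) (by omega)
  have h2 : ∀ r : ℕ, 3 ≤ r → ∀ c : ℝ, ∃ t : ℕ, 1 ≤ t ∧ ∃ f : ℕ, Admissible r t f ∧ c * t < f := by
    intro r hr c
    obtain ⟨C, hC⟩ := exists_nat_ge c
    obtain ⟨n, hn, hlt⟩ := growth (r - 1) (by omega) C
    refine ⟨n + 1, by omega, (r - 1) * n.choose (r - 1), ?_, ?_⟩
    · have := h1 r (n + 1) (by omega) (by omega)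
      rwa [Nat.add_sub_cancel] at this
    · have h3 : ((C * (n + 1) : ℕ) : ℝ) < (((r - 1) * n.choose (r - 1) : ℕ) : ℝ) := by
        exact_mod_cast hlt
      refine lt_of_le_of_lt ?_ h3
      push_cast
      exact mul_le_mul_of_nonneg_right hC (by positivity)
  refine ⟨h1, h2, ?_⟩
  intro h
  obtain ⟨c, hc⟩ := h 3 (by norm_num)
  obtain ⟨t, ht, f, hf, hlt⟩ := h2 3 le_rfl c
  exact absurd (hc t ht f hf) (not_le.2 hlt)

end Pool.Agent.Results.MP_1e70ae_co.Superlinear
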